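import Pool.Agent.N455.CS.Uni
import Pool.Agent.N455.CS.Law

/-!
# Identities of polymorphism clones and of type clones for random structures

Let `𝔹` be a homogeneous structure in a finite relational signature. We consider random relations
`R_0, ..., R_{t-1}` of large arities `k_0, ..., k_{t-1} ≥ n`, which are invariant under the
automorphism group of `𝔹`, with an arbitrary joint law which has finite energy `exp (-a n)`: given
everything else, every orbit of `k_j`-tuples is contained in `R_j` with conditional probability between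
`exp (-a n)` and `1 - exp (-a n)`. Outside of an event of probability at most `t C exp (-δ exp (c n))`
ALL the structures `𝔸` which contain some `R_j` and whose other relations are some `R_i` or have arity
at most `r` satisfy: either neither `Pol 𝔸` nor any type clone of `𝔸` (any parameters, any length of the
types) has a clone homomorphism to the projection clone, or `Pol 𝔸` has exactly one, and this one is
uniformly continuous.
-/

namespace Pool.Agent.Results.MP_f99268_lc.FiniteEnergyClones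

open Pool.Agent.W994.AR
open Pool.Agent.N455.CS (Omega rel IsLaw prob FiniteEnergy productLaw gibbsLaw)

variable {B : Type}

/-- The `n`-ary polymorphisms of `𝔸`. -/
def Pol {ι : Type} {ar : ι → ℕ} (𝔸 : Str ι ar B) (n : ℕ) : Set ((Fin n → B) → B) :=
  {f | IsPol 𝔸 f}

/-- The automorphisms in `G` which fix the parameters `c`. -/
def fix (G : Subgroup (Equiv.Perm B)) {l : ℕ} (c : Fin l → B) : Subgroup (Equiv.Perm B) where
  carrier := {g | g ∈ G ∧ ∀ i, g (c i) = c i}
  mul_mem' := by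
    rintro g h ⟨hg, hg'⟩ ⟨hh, hh'⟩
    exact ⟨G.mul_mem hg hh, fun i => by rw [Equiv.Perm.mul_apply, hh' i, hg' i]⟩
  one_mem' := ⟨G.one_mem, fun _ => rfl⟩
  inv_mem' := by
    rintro g ⟨hg, hg'⟩
    refine ⟨G.inv_mem hg, fun i => ?_⟩
    rw [Equiv.Perm.inv_eq_iff_eq]
    exact (hg' i).symm

/-- The operation `f` is canonical: the type (orbit under `H`) of the tuple `f (a_1, ..., a_k)` only
depends on the types of the tuples `a_1, ..., a_k`. -/
def Canonical (H : Subgroup (Equiv.Perm B)) {k : ℕ} (f : (Fin k → B) → B) : Prop :=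
  ∀ (m : ℕ) (a b : Fin k → Fin m → B), (∀ i, Same H (a i) (b i)) →
    Same H (fun j => f (fun i => a i j)) (fun j => f (fun i => b i j))

/-- The `k`-ary operations of the type clone of `𝔸` on the set of the types of `m`-tuples: the
operations induced by the canonical polymorphisms. -/
def typeClone (H : Subgroup (Equiv.Perm B)) {ι : Type} {ar : ι → ℕ} (𝔸 : Str ι ar B) (m k : ℕ) :
    Set ((Fin k → Orb H (Fin m)) → Orb H (Fin m)) :=
  {F | ∃ f : (Fin k → B) → B, IsPol 𝔸 f ∧ Canonical H f ∧ ∀ a : Fin k → Fin m → B,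
    F (fun i => Quotient.mk (orb H (Fin m)) (a i)) =
      Quotient.mk (orb H (Fin m)) (fun j => f (fun i => a i j))}

/-- `ξ` is a clone homomorphism from `C` (the operations of arity at least one) to the clone of the
projections on a set with two elements; `ξ n f = i` means that the image of `f` is the `i`-th
projection. -/
def IsHom {A : Type} (C : ∀ n : ℕ, Set ((Fin n → A) → A)) (ξ : ∀ n : ℕ, ((Fin n → A) → A) → ℕ) :
    Prop :=
  (∀ n, 1 ≤ n → ∀ f ∈ C n, ξ n f < n) ∧ (∀ (n : ℕ) (i : Fin n), ξ n (fun x => x i) = (i : ℕ)) ∧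
  ∀ (n m : ℕ) (f : (Fin n → A) → A) (g : Fin n → (Fin m → A) → A), 1 ≤ m → f ∈ C n →
    (∀ i, g i ∈ C m) → ∀ i : Fin n, ξ n f = (i : ℕ) → ξ m (fun x => f (fun i => g i x)) = ξ m (g i)

/-- There is exactly one clone homomorphism to the projection clone, and it is uniformly continuous:
`ξ n f` is determined by the restriction of `f` to a finite set which only depends on `n` and has at
most `n + 1` elements. -/
def UniqueHom (C : ∀ n : ℕ, Set ((Fin n → B) → B)) : Prop :=
  ∃ ξ, IsHom C ξ ∧ (∀ ξ', IsHom C ξ' → ∀ n, ∀ f ∈ C n, ξ' n f = ξ n f) ∧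
    ∀ n, ∃ F : Finset (Fin n → B), F.card ≤ n + 1 ∧
      ∀ f ∈ C n, ∀ f' ∈ C n, (∀ x ∈ F, f x = f' x) → ξ n f = ξ n f'

/-- The statement for all the structures which consist of finitely many invariant relations `Γ` of arity
at most `r` and of at least one of the relations `R j`. -/
def AllGood {σ : Type} {arB : σ → ℕ} (𝔹 : Str σ arB B) (r : ℕ) {t : ℕ} {k : Fin t → ℕ}
    (R : ∀ j, InvRel (autGroup 𝔹) (Fin (k j))) : Prop :=
  ∀ (ι : Type) [Finite ι] (arΓ : ι → ℕ) (Γ : Str ι arΓ B), (∀ l, arΓ l ≤ r) →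
    (∀ l, Invar (autGroup 𝔹) (Γ l)) → ∀ (s : ℕ) (e : Fin s → Fin t), 1 ≤ s →
      ((¬ ∃ ξ, IsHom (Pol (expand Γ (fun j => (R (e j)).1))) ξ) ∧
        ∀ (l : ℕ) (c : Fin l → B) (m : ℕ), ¬ ∃ ξ, IsHom
          (typeClone (fix (autGroup 𝔹) c) (expand Γ (fun j => (R (e j)).1)) m) ξ) ∨
      UniqueHom (Pol (expand Γ (fun j => (R (e j)).1)))

theorem no_hom {A : Type} {C : ∀ n : ℕ, Set ((Fin n → A) → A)} {s : A}
    (hu : (fun _ : Fin 1 → A => s) ∈ C 1) (hp : ∀ i : Fin 2, (fun x : Fin 2 → A => x i) ∈ C 2) :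
    ¬ ∃ ξ, IsHom C ξ := by
  rintro ⟨ξ, h1, h2, h3⟩
  have h0 : ξ 1 (fun _ : Fin 1 → A => s) = ((0 : Fin 1) : ℕ) := by
    have := h1 1 le_rfl _ hu
    simp only [Fin.val_zero]
    omega
  have h4 := h3 1 2 _ (fun _ x => x 0) one_le_two hu (fun _ => hp 0) 0 h0
  have h5 := h3 1 2 _ (fun _ x => x 1) one_le_two hu (fun _ => hp 1) 0 h0
  rw [h2 2 0] at h4
  rw [h2 2 1] at h5
  rw [h4] at h5
  simp at h5

theorem pol_of_const {ι : Type} {ar : ι → ℕ} {𝔸 : Str ι ar B} (h : ConstEndo 𝔸) :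
    ¬ ∃ ξ, IsHom (Pol 𝔸) ξ := by
  obtain ⟨b, hb⟩ := h
  exact no_hom (s := b) (fun i v hv => hb i (v 0) (hv 0)) (fun i l v hv => hv i)

theorem type_of_const {ι : Type} {ar : ι → ℕ} {𝔸 : Str ι ar B} (h : ConstEndo 𝔸)
    (H : Subgroup (Equiv.Perm B)) (m : ℕ) : ¬ ∃ ξ, IsHom (typeClone H 𝔸 m) ξ := by
  obtain ⟨b, hb⟩ := h
  refine no_hom (s := Quotient.mk (orb H (Fin m)) (fun _ => b)) ?_ ?_
  · exact ⟨fun _ => b, fun i v hv => hb i (v 0) (hv 0), fun m a b' _ => Same.refl H _, fun _ => rfl⟩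
  · intro i
    exact ⟨fun x => x i, fun l v hv => hv i, fun m a b' hab => hab i, fun _ => rfl⟩

theorem unique_of_max [Nontrivial B] {ι : Type} {ar : ι → ℕ} {𝔸 : Str ι ar B}
    {G : Subgroup (Equiv.Perm B)} (hA : ∀ i, Invar G (𝔸 i)) (h : PPMax G 𝔸) : UniqueHom (Pol 𝔸) := by
  classical
  obtain ⟨a, b, hab⟩ := exists_pair_ne B
  -- every polymorphism is `e (x i)`
  have hu : ∀ n, ∀ f ∈ Pol 𝔸 n, ∃ (i : Fin n) (e : B → B), InClosure G e ∧ ∀ x, f x = e (x i) :=
    fun n f hf => h.2.2 n f hf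
  have hinj : ∀ e : B → B, InClosure G e → ∀ x y, e x = e y → x = y := by
    intro e he x y hxy
    obtain ⟨g, _, hg⟩ := he {x, y}
    rw [hg x (by simp), hg y (by simp)] at hxy
    exact g.injective hxy
  have hpol : ∀ e : B → B, InClosure G e → (fun y : Fin 1 → B => e (y 0)) ∈ Pol 𝔸 1 := by
    intro e he i v hv
    obtain ⟨g, hg, hge⟩ := he (Finset.univ.image (v 0))
    have h1 := hA i g hg (v 0) (hv 0)
    have h2 : (fun j => e (v 0 j)) = fun j => g (v 0 j) := by
      funext j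
      exact hge _ (Finset.mem_image_of_mem _ (Finset.mem_univ j))
    show (fun j => e (v 0 j)) ∈ 𝔸 i
    rw [h2]
    exact h1
  -- the test tuples
  let tst : ∀ n : ℕ, Fin n → Fin n → B := fun n j l => if l = j then b else a
  have huniq : ∀ (n : ℕ) (f : (Fin n → B) → B) (i j : Fin n) (e e' : B → B), InClosure G e →
      (∀ x, f x = e (x i)) → (∀ x, f x = e' (x j)) → i = j := by
    intro n f i j e e' he h1 h2
    by_contra hij
    have h3 : f (fun _ => a) = f (tst n i) := by
      rw [h2, h2]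
      have : tst n i j = a := if_neg (fun h => hij h.symm)
      rw [this]
    rw [h1, h1] at h3
    have h4 := hinj e he _ _ h3
    have h5 : tst n i i = b := if_pos rfl
    rw [h5] at h4
    exact hab h4
  let ξ : ∀ n : ℕ, ((Fin n → B) → B) → ℕ := fun n f =>
    if hf : f ∈ Pol 𝔸 n then ((hu n f hf).choose : ℕ) else 0
  have hξ : ∀ (n : ℕ) (f : (Fin n → B) → B), f ∈ Pol 𝔸 n → ∀ (i : Fin n) (e : B → B),
      InClosure G e → (∀ x, f x = e (x i)) → ξ n f = i := by
    intro n f hf i e he h1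
    have h2 : ξ n f = ((hu n f hf).choose : ℕ) := dif_pos hf
    obtain ⟨e', he', h3⟩ := (hu n f hf).choose_spec
    rw [h2, huniq n f _ i e' e he' h3 h1]
  have hid : InClosure G (fun x : B => x) := fun F => ⟨1, G.one_mem, fun _ _ => rfl⟩
  refine ⟨ξ, ⟨?_, ?_, ?_⟩, ?_, ?_⟩
  · intro n _ f hf
    obtain ⟨i, e, he, h1⟩ := hu n f hf
    rw [hξ n f hf i e he h1]
    exact i.2
  · intro n i
    exact hξ n _ (fun l v hv => hv i) i _ hid (fun _ => rfl)
  · intro n m f g _ hf hg i hi
    obtain ⟨i', e, he, h1⟩ := hu n f hf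
    have hii : i' = i := by
      apply Fin.ext
      rw [← hξ n f hf i' e he h1, hi]
    subst hii
    obtain ⟨j, e', he', h2⟩ := hu m (g i') (hg i')
    rw [hξ m (g i') (hg i') j e' he' h2]
    refine hξ m _ (fun l v hv => hf l (fun i j => g i (fun a => v a j)) (fun i => hg i l v hv)) j
      (fun x => e (e' x)) ?_ (fun x => ?_)
    · intro F
      obtain ⟨g₁, hg₁, h3⟩ := he' F
      obtain ⟨g₂, hg₂, h4⟩ := he (F.image e')
      refine ⟨g₂ * g₁, G.mul_mem hg₂ hg₁, fun x hx => ?_⟩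
      rw [Equiv.Perm.mul_apply, ← h3 x hx]
      exact h4 _ (Finset.mem_image_of_mem _ hx)
    · show f (fun i => g i x) = e (e' (x j))
      rw [h1, h2]
  · rintro ξ' ⟨k1, k2, k3⟩ n f hf
    obtain ⟨i, e, he, h1⟩ := hu n f hf
    rw [hξ n f hf i e he h1]
    have h0 : ξ' 1 (fun y : Fin 1 → B => e (y 0)) = ((0 : Fin 1) : ℕ) := by
      have := k1 1 le_rfl _ (hpol e he)
      simp only [Fin.val_zero]
      omega
    have h4 := k3 1 n _ (fun _ x => x i) (by have := i.2; omega) (hpol e he) (fun _ l v hv => hv i) 0 h0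
    rw [k2 n i] at h4
    have h5 : f = fun x => e (x i) := funext h1
    rw [h5]
    exact h4
  · intro n
    refine ⟨insert (fun _ => a) (Finset.univ.image (tst n)), ?_, ?_⟩
    · refine (Finset.card_insert_le _ _).trans (Nat.succ_le_succ ?_)
      exact Finset.card_image_le.trans (by rw [Finset.card_univ, Fintype.card_fin])
    · intro f hf f' hf' hF
      obtain ⟨i, e, he, h1⟩ := hu n f hf
      obtain ⟨j, e', he', h2⟩ := hu n f' hf'
      rw [hξ n f hf i e he h1, hξ n f' hf' j e' he' h2]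
      congr 1
      by_contra hij
      have h3 : f' (fun _ => a) = f' (tst n i) := by
        rw [h2, h2]
        have : tst n i j = a := if_neg (fun h => hij h.symm)
        rw [this]
      have h6 : f (fun _ => a) = f (tst n i) := by
        rw [hF _ (Finset.mem_insert_self _ _), hF (tst n i)
          (Finset.mem_insert_of_mem (Finset.mem_image_of_mem _ (Finset.mem_univ i))), h3]
      rw [h1, h1] at h6
      have h4 := hinj e he _ _ h6
      have h5 : tst n i i = b := if_pos rfl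
      rw [h5] at h4
      exact hab h4

/-- **Q1 holds for almost all structures, for all laws of finite energy.** -/
theorem result {σ : Type} [Nontrivial B] [Finite σ] {arB : σ → ℕ} (𝔹 : Str σ arB B)
    (h𝔹 : Homogeneous 𝔹) :
    -- the bound for random relations
    (∀ r : ℕ, ∃ C c δ a : ℝ, 0 < C ∧ 0 < c ∧ 0 < δ ∧ 0 < a ∧
      ∀ (t : ℕ) (k : Fin t → ℕ) (n : ℕ), (∀ j, n ≤ k j) →
        ∀ μ : Set (Omega (autGroup 𝔹) k) → ℝ, IsLaw μ → FiniteEnergy (Real.exp (-(a * n))) μ →
          prob μ (fun Θ => ¬ AllGood 𝔹 r (fun j => rel (autGroup 𝔹) k Θ j)) ≤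
            t * C * Real.exp (-(δ * Real.exp (c * n)))) ∧
    -- independent orbits: sparse relations, random perturbations of given relations
    (∀ (Ω : Type) [Finite Ω] (p : Ω → ℝ) (ε : ℝ), 0 ≤ ε → (∀ o, ε ≤ p o ∧ p o ≤ 1 - ε) →
      IsLaw (productLaw p) ∧ FiniteEnergy ε (productLaw p)) ∧
    -- Gibbs laws
    (∀ (Ω : Type) [Finite Ω] (H : Set Ω → ℝ) (L : ℝ),
      (∀ (Θ : Set Ω) (o : Ω), |H (insert o Θ) - H (Θ \ {o})| ≤ L) →
        IsLaw (gibbsLaw H) ∧ FiniteEnergy (1 / (1 + Real.exp L)) (gibbsLaw H)) := by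
  classical
  have hfin : ∀ k, Finite (Orb (autGroup 𝔹) (Fin k)) := fun k => hom_finite h𝔹 (Fin k)
  refine ⟨?_, ?_, ?_⟩
  · intro r
    obtain ⟨M, hM, hdich⟩ := Pool.Agent.N455.CS.dich_of_rich 𝔹 h𝔹 r
    obtain ⟨C, c, δ, a, hC, hc, hδ, ha, hbd⟩ :=
      Pool.Agent.N455.CS.weight_bound (autGroup 𝔹) M hM hfin
    refine ⟨C, c, δ, a, hC, hc, hδ, ha, ?_⟩
    intro t k n hn μ hμ hfe
    have : Finite (Omega (autGroup 𝔹) k) := by
      have := fun j => hfin (k j)
      infer_instance
    have := Fintype.ofFinite (Omega (autGroup 𝔹) k)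
    have h1 := hbd t k n hn (fun R : Finset (Omega (autGroup 𝔹) k) => μ (R : Set _))
      (fun R => hμ.1 _) hfe.fe
    rw [hμ.sum, mul_one] at h1
    refine le_trans (Pool.Agent.N455.CS.prob_le hμ.1 ?_) h1
    intro R hR hrich
    apply hR
    intro ι _ arΓ Γ hr hΓ s e hs
    have hA : ∀ i, Invar (autGroup 𝔹) (expand Γ (fun j =>
        (rel (autGroup 𝔹) k (R : Set (Omega (autGroup 𝔹) k)) (e j)).1) i) := by
      rintro (l | j)
      · exact hΓ l
      · exact (rel (autGroup 𝔹) k (R : Set (Omega (autGroup 𝔹) k)) (e j)).2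
    rcases hdich ι arΓ Γ hr hΓ s hs (fun j => k (e j))
      (fun j => rel (autGroup 𝔹) k (R : Set (Omega (autGroup 𝔹) k)) (e j))
      (fun j => hrich (e j)) with h | h
    · exact Or.inl ⟨pol_of_const h, fun l c m => type_of_const h _ m⟩
    · exact Or.inr (unique_of_max hA h)
  · intro Ω _ p ε hε hp
    exact Pool.Agent.N455.CS.product_law p ε hε hp
  · intro Ω _ H L hH
    exact Pool.Agent.N455.CS.gibbs_law H L hH

end Pool.Agent.Results.MP_f99268_lc.FiniteEnergyClones
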